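import Pool.Agent.J6H36.BSV.Defs2
import Pool.Agent.J6H81.BSV.Aut

/-!
# Module AUT1 of project BSV
-/

set_option autoImplicit false

universe u

namespace Pool.Agent.J6H49.BSV

open Pool.Agent.J6H36.BSV Pool.Agent.J6H81.BSV

theorem t_AUT1 : S_AUT1.{u} := by
  intro k Ω _ _ _ _ _ t ht halg ζ m hm hζm
  have hζ : ζ ≠ 0 := by
    rintro rfl
    rw [zero_pow hm.ne'] at hζm
    exact zero_ne_one hζm
  have hB : IsTranscendenceBasis k ((↑) : ({t} : Set Ω) → Ω) := by
    have hai : AlgebraicIndependent k ((↑) : ({t} : Set Ω) → Ω) := by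
      rw [algebraicIndependent_unique_type_iff]
      exact ht
    rw [isTranscendenceBasis_iff_algebraicIndependent_isAlgebraic]
    refine ⟨hai, ?_⟩
    rw [Subtype.range_coe]
    exact ⟨halg⟩
  obtain ⟨σ, hσs, -⟩ := exists_scale hB t rfl hζ
  have hps : ∀ j : ℕ, (σ ^ j) t = algebraMap k Ω (ζ ^ j) * t := by
    intro j
    induction j with
    | zero => simp
    | succ j ih =>
      rw [pow_succ, AlgHom.mul_apply, hσs, map_mul, AlgHom.commutes, ih, pow_succ ζ j, map_mul]
      ring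
  refine ⟨σ, hps, fun x => ?_⟩
  obtain ⟨M, hM, h⟩ := periodic_of_fix hB (σ ^ m) (fun x hx => by
    have : x = t := hx
    subst this
    rw [hps, hζm, map_one, one_mul]) x
  exact ⟨m * M, Nat.mul_pos hm hM, by rw [pow_mul]; exact h⟩

end Pool.Agent.J6H49.BSV
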